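import Pool.Agent.ProphetSecretary.Proof

open Pool.Agent.ProphetSecretary

namespace Pool.Agent.Results.MP_47c63b_lc.BeatsOneMinusInvE

/-- **Main theorem.** There is an algorithm in the single-query model whose competitive ratio is
strictly greater than `1 - 1/e`; in fact it is at least `0.635`. The algorithm asks for the quantile
`153/250` for every `n` (so that a correct answer exists for every instance), accepts every value
above the answer, and in the last `⌈n/10⌉` steps also every value above all values seen before. -/
theorem result : ∃ A : Algorithm,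
    (∀ n, A.query n = 153 / 250) ∧
    (∀ n k, A.accept n k = {p | p.1 < p.2 (Fin.last k) ∨
      (n - (n + 9) / 10 ≤ k ∧ ∀ j : Fin k, p.2 j.castSucc < p.2 (Fin.last k))}) ∧
    ENNReal.ofReal (1 - 1 / Real.exp 1) < competitiveRatio A ∧
    ENNReal.ofReal (127 / 200) ≤ competitiveRatio A := by
  refine ⟨alg, fun _ => rfl, fun _ _ => rfl, lt_of_lt_of_le ?_ ratio_ge, ratio_ge⟩
  exact (ENNReal.ofReal_lt_ofReal_iff (by norm_num)).2 exp_bound2

end Pool.Agent.Results.MP_47c63b_lc.BeatsOneMinusInvE
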